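import Mathlib
import Pool.Agent.H868R3.TateExt
import Pool.Agent.H194R3.CM.General

/-!
# Tate classes on products of varieties over finite fields: the general criterion

Families of CM fields `K i` with Weil numbers `π i`. If there are no integral relations between the
translates of the vector of (normalised) slopes, all multiplicative relations between the
conjugates of the `π i` are trivial. Adapted from the files `TateTwo`, `TateTwoMain`, `TateExt` of
helper868, where the fields have degree a power of two.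
-/

set_option autoImplicit false
set_option linter.unusedSectionVars false

namespace Pool.Agent.H194R3.Tate

open NumberField Module Pool.Agent.H925R2 Pool.Agent.H485R3 Pool.Agent.H204R3.CM
  Pool.Agent.H868R3.TwoOdd Pool.Agent.H194R3.CM

noncomputable section

variable {I : Type*} (p : ℕ) [Fact p.Prime] {K : I → Type*} [∀ i, Field (K i)]
  [∀ i, NumberField (K i)] [∀ i, IsCMField (K i)]

/-- The normalised slope of the conjugate `x.2 (π x.1)`, for the embedding `e`. -/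
def slope (q : I → ℚ) (π : ∀ i, K i) {L : Type*} [Field L] [Algebra ℚ L]
    (e : L →ₐ[ℚ] PadicAlgCl p) (x : Σ i, (K i →+* L)) : ℝ :=
  dev p (q x.1) (e (x.2 (π x.1)))

/-- There are no antisymmetric integral vectors orthogonal to the translates of the vector of
slopes. -/
def NoRel [Fintype I] (q : I → ℚ) (π : ∀ i, K i) : Prop :=
  ∀ (L : IntermediateField ℚ (AlgebraicClosure ℚ)) (_ : NumberField L) (_ : IsGalois ℚ L)
    (j : L →+* ℂ), (∀ i, ∀ ψ : K i →+* ℂ, ∃ φ : K i →+* L, j.comp φ = ψ) →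
    ∀ (e : L →ₐ[ℚ] PadicAlgCl p) (c : (Σ i, (K i →+* L)) → ℤ), (∀ x, c (inj x) = -c x) →
      (∀ g : L ≃ₐ[ℚ] L, ∑ x : Σ i, (K i →+* L), (c x : ℝ) * slope p q π e (g • x) = 0) →
      ∀ x, c x = 0

theorem slope_inj {q : I → ℚ} (hq : ∀ i, 0 < q i) {π : ∀ i, K i}
    (hweil : ∀ i, ∀ φ : K i →+* ℂ, ‖φ (π i)‖ ^ 2 = (q i : ℝ)) {L : Type*} [Field L]
    [NumberField L] (e : L →ₐ[ℚ] PadicAlgCl p) (x : Σ i, (K i →+* L)) :
    slope p q π e (inj x) = -slope p q π e x := by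
  obtain ⟨i, φ⟩ := x
  have h1 := dev_inv p (hq i).ne' (((e : L →+* PadicAlgCl p).comp φ) (π i))
    ((map_ne_zero _).2 (weil_ne (hq i) (hweil i)))
  rw [← weil_cbar (hq i) (hweil i)] at h1
  exact h1

theorem counts_of_norel [Fintype I] {L : Type*} [Field L] [NumberField L] [IsGalois ℚ L]
    (q : I → ℚ) (hq : ∀ i, 0 < q i) (π : ∀ i, K i)
    (hweil : ∀ i, ∀ φ : K i →+* ℂ, ‖φ (π i)‖ ^ 2 = (q i : ℝ)) (e : L →ₐ[ℚ] PadicAlgCl p)
    (hnd : ∀ c : (Σ i, (K i →+* L)) → ℤ, (∀ x, c (inj x) = -c x) →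
      (∀ g : L ≃ₐ[ℚ] L, ∑ x : Σ i, (K i →+* L), (c x : ℝ) * slope p q π e (g • x) = 0) →
      ∀ x, c x = 0)
    {n : ℕ} (t : Fin n → I) (W : ∀ a, K (t a) →+* L) (s : ℕ) (hs : 0 < s)
    (hrel : (∏ a, W a (π (t a))) ^ (2 * s) = (∏ a, (q (t a) : L)) ^ s) (i : I) (φ : K i →+* L) :
    Nat.card {a // (⟨t a, W a⟩ : Σ i, (K i →+* L)) = ⟨i, φ⟩} =
      Nat.card {a // (⟨t a, W a⟩ : Σ i, (K i →+* L)) = ⟨i, cbar φ⟩} := by
  classical
  let X := Σ i, (K i →+* L)
  let x : Fin n → X := fun a => ⟨t a, W a⟩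
  let N : X → ℤ := fun y => ((Finset.univ.filter (fun a => x a = y)).card : ℤ)
  have hsumN : ∀ G : X → ℝ, ∑ y, (N y : ℝ) * G y = ∑ a, G (x a) := by
    intro G
    rw [← Finset.sum_fiberwise Finset.univ x (fun a => G (x a))]
    refine Finset.sum_congr rfl fun y _ => ?_
    rw [Finset.sum_congr rfl (fun a ha => by rw [(Finset.mem_filter.1 ha).2])]
    rw [Finset.sum_const, nsmul_eq_mul]
    simp only [N]
    push_cast
    rfl
  have key := hnd (fun y => N y - N (inj y)) (fun y => by rw [inj_inj]; ring) (by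
    intro g
    have h1 := sum_dev p t q hq (fun a => g (W a (π (t a))))
      (fun a => (map_ne_zero g).2 ((map_ne_zero _).2 (weil_ne (hq _) (hweil _)))) s hs (by
        rw [← map_prod, ← map_pow, hrel, map_pow, map_prod]
        simp only [map_ratCast]) e
    have h2 : ∑ y : X, (N y : ℝ) * slope p q π e (g • y) = 0 := by
      rw [hsumN]
      exact h1
    have h3 : ∑ y : X, (N (inj y) : ℝ) * slope p q π e (g • y) =
        - ∑ y : X, (N y : ℝ) * slope p q π e (g • y) := by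
      rw [← Finset.sum_neg_distrib]
      refine Finset.sum_nbij' inj inj (fun _ _ => Finset.mem_univ _)
        (fun _ _ => Finset.mem_univ _) (fun y _ => inj_inj y) (fun y _ => inj_inj y) ?_
      intro y _
      have h4 : g • y = inj (g • inj y) := by
        obtain ⟨a, ψ⟩ := y
        change _ = (⟨a, cbar (g • cbar ψ)⟩ : X)
        have h5 : g • cbar ψ = cbar (g • ψ) := rfl
        rw [h5, cbar_cbar]
        rfl
      conv_lhs => rw [h4, slope_inj p hq hweil]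
      ring
    have h4 : ∀ y : X, ((N y - N (inj y) : ℤ) : ℝ) * slope p q π e (g • y) =
        (N y : ℝ) * slope p q π e (g • y) - (N (inj y) : ℝ) * slope p q π e (g • y) := by
      intro y
      push_cast
      ring
    rw [Finset.sum_congr rfl (fun y _ => h4 y), Finset.sum_sub_distrib, h3, h2]
    simp) ⟨i, φ⟩
  have hcard : ∀ y : X, (Nat.card {a // x a = y} : ℤ) = N y := by
    intro y
    rw [Nat.card_eq_fintype_card, Fintype.card_subtype]
  have h2 := hcard ⟨i, φ⟩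
  have h3 := hcard ⟨i, cbar φ⟩
  have h4 : (Nat.card {a // x a = ⟨i, φ⟩} : ℤ) = (Nat.card {a // x a = ⟨i, cbar φ⟩} : ℤ) := by
    rw [h2, h3]
    have h5 : N ⟨i, φ⟩ - N (inj ⟨i, φ⟩) = 0 := key
    have h6 : N (inj ⟨i, φ⟩) = N ⟨i, cbar φ⟩ := rfl
    linarith
  exact_mod_cast h4

/-- The basic statement on multiplicative relations, in an algebraically closed field. -/
theorem balanced_of_norel [Finite I] (q : I → ℚ) (hq : ∀ i, 0 < q i) (π : ∀ i, K i)
    (hgen : ∀ i, IntermediateField.adjoin ℚ {π i} = ⊤)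
    (hweil : ∀ i, ∀ φ : K i →+* ℂ, ‖φ (π i)‖ ^ 2 = (q i : ℝ))
    (hnd : ∀ _ : Fintype I, NoRel p q π)
    {Ω : Type*} [Field Ω] [IsAlgClosed Ω] [CharZero Ω]
    {n : ℕ} (t : Fin n → I) (s : ℕ) (hs : 0 < s) (c : Ω) (hc : c ^ 2 = ∏ a, (q (t a) : Ω))
    (y : Fin n → Ω) (hy : ∀ a, y a ∈ {μ : Ω | ∃ σ : K (t a) →+* Ω, σ (π (t a)) = μ})
    (hprod : (∏ a, y a) ^ s = c ^ s) (i : I) (z : Ω)
    (hz : z ∈ {μ : Ω | ∃ σ : K i →+* Ω, σ (π i) = μ}) :
    Nat.card {a // t a = i ∧ y a = z} = Nat.card {a // t a = i ∧ y a = (q i : Ω) / z} := by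
  classical
  cases nonempty_fintype I
  obtain ⟨L, hL1, hL2, j, h⟩ := exists_galois K
  let e : L →ₐ[ℚ] PadicAlgCl p := IsAlgClosed.lift
  let jΩ : L →ₐ[ℚ] Ω := IsAlgClosed.lift
  have hlift : ∀ i, ∀ σ : K i →+* Ω, ∃ φ : K i →+* L, (jΩ : L →+* Ω).comp φ = σ := by
    intro i
    have hinj : Function.Injective (fun φ : K i →+* L => (jΩ : L →+* Ω).comp φ) := by
      intro φ φ' hh
      ext x
      have h1 := RingHom.congr_fun hh x
      exact congrArg Subtype.val (jΩ.injective h1)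
    have hbij : Function.Bijective (fun φ : K i →+* L => (jΩ : L →+* Ω).comp φ) := by
      rw [Fintype.bijective_iff_injective_and_card]
      exact ⟨hinj, by rw [card_emb j (h i), Embeddings.card]⟩
    exact hbij.2
  choose σ hσ using hy
  choose W hW using fun a => hlift (t a) (σ a)
  obtain ⟨σz, hσz⟩ := hz
  obtain ⟨φ, hφ⟩ := hlift i σz
  have hWy : ∀ a, jΩ (W a (π (t a))) = y a := by
    intro a
    rw [← hσ a, ← hW a]
    rfl
  have hφz : jΩ (φ (π i)) = z := by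
    rw [← hσz, ← hφ]
    rfl
  have hrel : (∏ a, W a (π (t a))) ^ (2 * s) = (∏ a, (q (t a) : L)) ^ s := by
    apply jΩ.injective
    change jΩ ((∏ a, W a (π (t a))) ^ (2 * s)) = jΩ ((∏ a, (q (t a) : L)) ^ s)
    rw [map_pow, map_prod, map_pow, map_prod]
    simp only [hWy, map_ratCast]
    rw [mul_comm 2 s, pow_mul, hprod, ← hc, ← pow_mul, ← pow_mul, mul_comm]
  have key := counts_of_norel p q hq π hweil e
    (hnd inferInstance L hL1 hL2 j h e) t W s hs hrel i φ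
  have hiff : ∀ ψ : K i →+* L, ∀ w : Ω, jΩ (ψ (π i)) = w → ∀ a,
      (t a = i ∧ y a = w) ↔ (⟨t a, W a⟩ : Σ i, (K i →+* L)) = ⟨i, ψ⟩ := by
    intro ψ w hw a
    constructor
    · rintro ⟨h1, h2⟩
      obtain rfl := h1
      rw [← hWy a, ← hw] at h2
      have h3 : W a (π (t a)) = ψ (π (t a)) := jΩ.injective h2
      rw [hom_ext_of_gen (hgen (t a)) h3]
    · intro h1
      have h2 : t a = i := congrArg Sigma.fst h1
      refine ⟨h2, ?_⟩
      obtain rfl := h2
      have h3 : W a = ψ := by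
        have h4 := (Sigma.mk.inj_iff.1 h1).2
        exact eq_of_heq h4
      rw [← hWy a, ← hw, h3]
  have hcz : jΩ (cbar φ (π i)) = (q i : Ω) / z := by
    rw [weil_cbar (hq i) (hweil i), map_div₀, map_ratCast, hφz]
  rw [Nat.card_congr (Equiv.subtypeEquivRight (hiff φ z hφz)),
    Nat.card_congr (Equiv.subtypeEquivRight (hiff (cbar φ) ((q i : Ω) / z) hcz))]
  exact key

/-- **The general criterion, multilinear form.** -/
theorem multi_of_norel [Finite I] (q : I → ℚ) (hq : ∀ i, 0 < q i) (π : ∀ i, K i)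
    (hgen : ∀ i, IntermediateField.adjoin ℚ {π i} = ⊤)
    (hweil : ∀ i, ∀ φ : K i →+* ℂ, ‖φ (π i)‖ ^ 2 = (q i : ℝ))
    (hnd : ∀ _ : Fintype I, NoRel p q π)
    {Ω : Type*} [Field Ω] [IsAlgClosed Ω] [CharZero Ω]
    (V : I → Type*) [∀ i, AddCommGroup (V i)] [∀ i, Module Ω (V i)]
    [∀ i, FiniteDimensional Ω (V i)] (F : ∀ i, V i →ₗ[Ω] V i)
    (hF : ∀ i, Submodule.span Ω {v : V i | ∃ σ : K i →+* Ω, F i v = σ (π i) • v} = ⊤)
    {n : ℕ} (t : Fin n → I) (s : ℕ) (hs : 0 < s) (c : Ω) (hc : c ^ 2 = ∏ a, (q (t a) : Ω))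
    (φ : MultilinearMap Ω (fun a => V (t a)) Ω)
    (hφ : ∀ v : ∀ a, V (t a), φ (fun a => (F (t a) ^ s) (v a)) = c ^ s * φ v) :
    φ ∈ Submodule.span Ω {ψ | IsProductOfPairings V F (fun i => (q i : Ω)) t ψ} := by
  refine multilinear_mixed V F (fun i => (q i : Ω))
    (fun i => {μ : Ω | ∃ σ : K i →+* Ω, σ (π i) = μ}) (conj_ne K q hq π hgen hweil)
    (fun i => Rat.cast_ne_zero.2 (hq i).ne') ?_ (conj_mem K q hq π hweil) t s c
    (fun y hy hprod i z hz => balanced_of_norel p q hq π hgen hweil hnd t s hs c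
      hc y hy hprod i z hz) φ hφ
  intro i
  rw [← hF i]
  congr 1
  ext v
  constructor
  · rintro ⟨μ, ⟨σ, rfl⟩, h⟩
    exact ⟨σ, h⟩
  · rintro ⟨σ, h⟩
    exact ⟨_, ⟨σ, rfl⟩, h⟩

theorem list_of_norel [Finite I] (q : ℚ) (hq : 0 < q) (π : ∀ i, K i)
    (hgen : ∀ i, IntermediateField.adjoin ℚ {π i} = ⊤)
    (hweil : ∀ i, ∀ φ : K i →+* ℂ, ‖φ (π i)‖ ^ 2 = (q : ℝ))
    (hnd : ∀ _ : Fintype I, NoRel p (fun _ => q) π)
    {Ω : Type*} [Field Ω] [IsAlgClosed Ω] [CharZero Ω] [DecidableEq Ω]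
    (m s : ℕ) (hs : 0 < s) (L : List Ω) (hlen : L.length = 2 * m)
    (hL : ∀ x ∈ L, x ∈ {μ : Ω | ∃ i, ∃ σ : K i →+* Ω, σ (π i) = μ})
    (hprod : L.prod ^ s = ((q : Ω) ^ m) ^ s)
    (x : Ω) (hx : x ∈ {μ : Ω | ∃ i, ∃ σ : K i →+* Ω, σ (π i) = μ}) :
    L.count x = L.count ((q : Ω) / x) := by
  classical
  cases nonempty_fintype I
  have h1 : ∀ a : Fin L.length, ∃ i, ∃ σ : K i →+* Ω, σ (π i) = L.get a :=
    fun a => hL _ (List.get_mem L a)
  choose t σ hσ using h1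
  have hcard : ∀ z : Ω, L.count z = ∑ i, Nat.card {a : Fin L.length // t a = i ∧ L.get a = z} := by
    intro z
    rw [list_count_eq, Nat.card_eq_fintype_card, Fintype.card_subtype,
      Finset.card_eq_sum_card_fiberwise (f := t) (t := Finset.univ) (fun _ _ => Finset.mem_univ _)]
    refine Finset.sum_congr rfl fun i _ => ?_
    rw [Nat.card_eq_fintype_card, Fintype.card_subtype, Finset.filter_filter]
    congr 1
    ext a
    simp only [Finset.mem_filter, Finset.mem_univ, true_and]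
    exact and_comm
  rw [hcard, hcard]
  refine Finset.sum_congr rfl fun i _ => ?_
  have hprod' : (∏ a, L.get a) ^ s = ((q : Ω) ^ m) ^ s := by
    rw [← hprod]
    congr 1
    rw [← List.prod_ofFn, List.ofFn_get]
  have hq2 : ((q : Ω) ^ m) ^ 2 = ∏ _a : Fin L.length, (q : Ω) := by
    rw [Finset.prod_const, Finset.card_univ, Fintype.card_fin, hlen, ← pow_mul, mul_comm]
  by_cases hxi : ∃ σ : K i →+* Ω, σ (π i) = x
  · exact balanced_of_norel p (fun _ => q) (fun _ => hq) π hgen hweil hnd t s hs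
      ((q : Ω) ^ m) hq2 (fun a => L.get a) (fun a => ⟨σ a, hσ a⟩) hprod' i x hxi
  · have h2 : ¬ ∃ σ : K i →+* Ω, σ (π i) = (q : Ω) / x := by
      intro h
      apply hxi
      have h3 := conj_mem K (fun _ => q) (fun _ => hq) π hweil i ((q : Ω) / x) h
      have hx0 : x ≠ 0 := by
        obtain ⟨i', h'⟩ := hx
        exact (conj_ne K (fun _ => q) (fun _ => hq) π hgen hweil i' x h').1
      have hq0 : (q : Ω) ≠ 0 := by exact_mod_cast hq.ne'
      have h4 : (q : Ω) / ((q : Ω) / x) = x := by field_simp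
      rwa [h4] at h3
    have h3 : ∀ z : Ω, (¬ ∃ σ : K i →+* Ω, σ (π i) = z) →
        Nat.card {a : Fin L.length // t a = i ∧ L.get a = z} = 0 := by
      intro z hz
      rw [Nat.card_eq_zero]
      left
      refine ⟨fun ⟨a, h4, h5⟩ => hz ?_⟩
      subst h4
      exact ⟨σ a, (hσ a).trans h5⟩
    rw [h3 _ hxi, h3 _ h2]

/-- **The general criterion, exterior algebra form.** -/
theorem ext_of_norel [Finite I] (q : ℚ) (hq : 0 < q) (π : ∀ i, K i)
    (hgen : ∀ i, IntermediateField.adjoin ℚ {π i} = ⊤)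
    (hweil : ∀ i, ∀ φ : K i →+* ℂ, ‖φ (π i)‖ ^ 2 = (q : ℝ))
    (hnd : ∀ _ : Fintype I, NoRel p (fun _ => q) π)
    {Ω : Type*} [Field Ω] [IsAlgClosed Ω] [CharZero Ω]
    {V : Type*} [AddCommGroup V] [Module Ω V] (F : V →ₗ[Ω] V)
    (hF : Submodule.span Ω {v : V | ∃ i, ∃ σ : K i →+* Ω, F v = σ (π i) • v} = ⊤)
    (m s : ℕ) (hs : 0 < s) (x : ExteriorAlgebra Ω V) (hx : x ∈ ⋀[Ω]^(2 * m) V)
    (hFx : ExteriorAlgebra.map (F ^ s) x = ((q : Ω) ^ m) ^ s • x) :
    x ∈ Algebra.adjoin Ω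
      {y : ExteriorAlgebra Ω V | y ∈ ⋀[Ω]^2 V ∧ ExteriorAlgebra.map F y = (q : Ω) • y} := by
  classical
  refine mem_adjoin_of_balanced F (q : Ω) {μ : Ω | ∃ i, ∃ σ : K i →+* Ω, σ (π i) = μ} ?_ ?_ m s ?_
    x hx hFx
  · rintro y ⟨i, h⟩
    exact conj_ne K (fun _ => q) (fun _ => hq) π hgen hweil i y h
  · rw [← hF]
    congr 1
    ext v
    constructor
    · rintro ⟨μ, ⟨i, σ, rfl⟩, h⟩
      exact ⟨i, σ, h⟩
    · rintro ⟨i, σ, h⟩
      exact ⟨_, ⟨i, σ, rfl⟩, h⟩
  · intro L hlen hL hprod y hy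
    exact list_of_norel p q hq π hgen hweil hnd m s hs L hlen hL hprod y hy

end

end Pool.Agent.H194R3.Tate
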