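import Mathlib
import Pool.Agent.H194R3.Tate.Gen
import Pool.Agent.H194R3.CM.Flip

/-!
# No relations between slopes if all pairs of embeddings are flipped
-/

set_option autoImplicit false
set_option linter.unusedSectionVars false

namespace Pool.Agent.H194R3.Tate

open NumberField Module Pool.Agent.H925R2 Pool.Agent.H485R3 Pool.Agent.H204R3.CM
  Pool.Agent.H868R3.TwoOdd Pool.Agent.H194R3.CM

/-- The group-theoretic core for arbitrary vectors `u`. -/
theorem core_flip_real {X : Type*} [Fintype X] {G : Type*} [Group G] [Fintype G] [MulAction G X]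
    (inv : X → X) (hinv : ∀ x, inv (inv x) = x) (hne : ∀ x, inv x ≠ x)
    (hG : ∀ (g : G) (x : X), g • inv x = inv (g • x))
    (u : X → ℝ) (hu : ∀ x, ∃ g : G, u (g • x) ≠ 0) (hua : ∀ x, u (inv x) = -u x)
    (hflip : ∀ x y, y ≠ x → y ≠ inv x →
      ∃ g : G, (g • x = x ∧ g • y = inv y) ∨ (g • x = inv x ∧ g • y = y) ∨
        (g • x = y ∧ g • y = inv x))
    (c : X → ℤ) (hc : ∀ x, c (inv x) = -c x)
    (hrel : ∀ g : G, ∑ x, (c x : ℝ) * u (g • x) = 0) :
    ∀ x, c x = 0 := by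
  classical
  let A : X → X → ℝ := fun x y => ∑ g : G, u (g • x) * u (g • y)
  have hAsymm : ∀ x y, A x y = A y x := by
    intro x y
    exact Finset.sum_congr rfl fun g _ => mul_comm _ _
  have hAinv : ∀ (h : G) x y, A (h • x) (h • y) = A x y := by
    intro h x y
    simp only [A, ← mul_smul]
    exact Fintype.sum_equiv (Equiv.mulRight h) _ _ fun g => rfl
  have hA1 : ∀ x y, A (inv x) y = -A x y := by
    intro x y
    simp only [A, hG, hua, neg_mul, Finset.sum_neg_distrib]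
  have hA2 : ∀ x y, A x (inv y) = -A x y := by
    intro x y
    simp only [A, hG, hua, mul_neg, Finset.sum_neg_distrib]
  have hA0 : ∀ x y, y ≠ x → y ≠ inv x → A x y = 0 := by
    intro x y h1 h2
    obtain ⟨g, ⟨hg1, hg2⟩ | ⟨hg1, hg2⟩ | ⟨hg1, hg2⟩⟩ := hflip x y h1 h2
    · have h3 := hAinv g x y
      rw [hg1, hg2, hA2] at h3
      linarith
    · have h3 := hAinv g x y
      rw [hg1, hg2, hA1] at h3
      linarith
    · have h3 := hAinv g x y
      rw [hg1, hg2, hA2, hAsymm] at h3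
      linarith
  have hAxx : ∀ x, 0 < A x x := by
    intro x
    obtain ⟨g, hg⟩ := hu x
    exact Finset.sum_pos' (fun g _ => mul_self_nonneg _)
      ⟨g, Finset.mem_univ _, mul_self_pos.2 hg⟩
  intro y
  have h1 : ∑ x, (c x : ℝ) * A x y = 0 := by
    simp only [A, Finset.mul_sum]
    rw [Finset.sum_comm]
    refine Finset.sum_eq_zero fun g _ => ?_
    have h2 : ∑ x, (c x : ℝ) * (u (g • x) * u (g • y)) = (∑ x, (c x : ℝ) * u (g • x)) * u (g • y) := by
      rw [Finset.sum_mul]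
      exact Finset.sum_congr rfl fun x _ => by ring
    rw [h2, hrel g, zero_mul]
  have h2 : ∑ x, (c x : ℝ) * A x y = c y * A y y + c (inv y) * A (inv y) y := by
    rw [← Finset.sum_pair (hne y).symm (f := fun x => (c x : ℝ) * A x y)]
    symm
    refine Finset.sum_subset (Finset.subset_univ _) fun x _ hx => ?_
    simp only [Finset.mem_insert, Finset.mem_singleton, not_or] at hx
    rw [hA0 x y (fun h => hx.1 h.symm) (fun h => hx.2 (by rw [h, hinv])), mul_zero]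
  rw [h1, hc, hA1] at h2
  push_cast at h2
  have h3 : (c y : ℝ) * A y y = 0 := by linarith
  rcases mul_eq_zero.1 h3 with h | h
  · exact_mod_cast h
  · exact absurd h (hAxx y).ne'

variable {I : Type*} (p : ℕ) [Fact p.Prime] {K : I → Type*} [∀ i, Field (K i)]
  [∀ i, NumberField (K i)] [∀ i, IsCMField (K i)]

/-- The embeddings into an algebraically closed field factor through the Galois field `L`. -/
theorem exists_lift {L : Type*} [Field L] [NumberField L] {F : Type*} [Field F] [NumberField F]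
    (j : L →+* ℂ) (h : ∀ ψ : F →+* ℂ, ∃ φ : F →+* L, j.comp φ = ψ)
    {A : Type*} [Field A] [IsAlgClosed A] [CharZero A] (e : L →ₐ[ℚ] A) (τ : F →+* A) :
    ∃ φ : F →+* L, (e : L →+* A).comp φ = τ := by
  have hinj : Function.Injective (fun φ : F →+* L => (e : L →+* A).comp φ) := by
    intro φ φ' hh
    ext x
    have h1 : e (φ x) = e (φ' x) := RingHom.congr_fun hh x
    exact (e : L →+* A).injective h1
  have hbij : Function.Bijective (fun φ : F →+* L => (e : L →+* A).comp φ) := by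
    rw [Fintype.bijective_iff_injective_and_card]
    exact ⟨hinj, by rw [card_emb j h, Embeddings.card]⟩
  exact hbij.2 τ

/-- Some conjugate has a nonzero normalised slope. -/
theorem exists_slope_ne {L : Type*} [Field L] [NumberField L] [IsGalois ℚ L]
    (j : L →+* ℂ) (h : ∀ i, ∀ ψ : K i →+* ℂ, ∃ φ : K i →+* L, j.comp φ = ψ)
    (q : I → ℚ) (π : ∀ i, K i) (e : L →ₐ[ℚ] PadicAlgCl p)
    (hns : ∀ i, ∃ τ : K i →+* PadicAlgCl p, dev p (q i) (τ (π i)) ≠ 0)
    (x : Σ i, (K i →+* L)) : ∃ g : L ≃ₐ[ℚ] L, slope p q π e (g • x) ≠ 0 := by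
  obtain ⟨i, φ⟩ := x
  obtain ⟨τ, hτ⟩ := hns i
  obtain ⟨φ', hφ'⟩ := exists_lift j (h i) e τ
  obtain ⟨g, hg⟩ := MulAction.exists_smul_eq (L ≃ₐ[ℚ] L) φ φ'
  refine ⟨g, ?_⟩
  change dev p (q i) (e ((g • φ) (π i))) ≠ 0
  rw [hg]
  rw [← hφ'] at hτ
  exact hτ

/-- Flipped pairs of complex embeddings give flipped pairs of embeddings into the Galois field. -/
theorem flip_transfer {L : Type*} [Field L] [NumberField L] [IsGalois ℚ L] (j : L →+* ℂ)
    (x y : Σ i, (K i →+* L))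
    (hf : Flipped (⟨x.1, j.comp x.2⟩ : Σ i, (K i →+* ℂ)) ⟨y.1, j.comp y.2⟩) :
    ∃ g : L ≃ₐ[ℚ] L, (g • x = x ∧ g • y = inj y) ∨ (g • x = inj x ∧ g • y = y) ∨
      (g • x = y ∧ g • y = inj x) := by
  let J : (Σ i, (K i →+* L)) → Σ i, (K i →+* ℂ) := fun x => ⟨x.1, j.comp x.2⟩
  have hJ : Function.Injective J := by
    rintro ⟨a, φ⟩ ⟨b, ψ⟩ h
    simp only [J, Sigma.mk.injEq] at h
    obtain ⟨rfl, h⟩ := h
    rw [comp_injective j (eq_of_heq h)]
  have hJinv : ∀ x, J (inj x) = bar (J x) := by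
    rintro ⟨a, φ⟩
    simp only [J, inj, comp_cbar, bar]
  obtain ⟨τ, hτ⟩ := hf
  obtain ⟨σ, hσ⟩ := exists_restrict j τ
  have hJσ : ∀ z, J (σ • z) = move τ (J z) := by
    rintro ⟨a, φ⟩
    exact congrArg (Sigma.mk a) (comp_smul_of_restrict j τ σ hσ φ)
  refine ⟨σ, ?_⟩
  rcases hτ with ⟨h3, h4⟩ | ⟨h3, h4⟩ | ⟨h3, h4⟩
  · refine Or.inl ⟨hJ ?_, hJ ?_⟩
    · rw [hJσ]; exact h3
    · rw [hJσ, hJinv]; exact h4
  · refine Or.inr (Or.inl ⟨hJ ?_, hJ ?_⟩)
    · rw [hJσ, hJinv]; exact h3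
    · rw [hJσ]; exact h4
  · refine Or.inr (Or.inr ⟨hJ ?_, hJ ?_⟩)
    · rw [hJσ]; exact h3
    · rw [hJσ, hJinv]; exact h4

/-- **No relations if all pairs are flipped and no `π i` is supersingular.** -/
theorem norel_of_flip [Fintype I] (q : I → ℚ) (hq : ∀ i, 0 < q i) (π : ∀ i, K i)
    (hweil : ∀ i, ∀ φ : K i →+* ℂ, ‖φ (π i)‖ ^ 2 = (q i : ℝ))
    (hflip : ∀ x y : Σ i, (K i →+* ℂ), y ≠ x → y ≠ bar x → Flipped x y)
    (hns : ∀ i, ∃ τ : K i →+* PadicAlgCl p, dev p (q i) (τ (π i)) ≠ 0) : NoRel p q π := by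
  classical
  intro L _ _ j h e c hc hrel
  refine core_flip_real (G := L ≃ₐ[ℚ] L) inj inj_inj ?_ ?_ (slope p q π e)
    (exists_slope_ne p j h q π e hns) (slope_inj p hq hweil e) ?_ c hc hrel
  · rintro ⟨a, φ⟩ h
    exact cbar_ne φ (eq_of_heq (Sigma.mk.inj_iff.1 h).2)
  · rintro g ⟨a, φ⟩
    rfl
  · intro x y h1 h2
    refine flip_transfer j x y (hflip _ _ ?_ ?_)
    · intro h3
      apply h1
      obtain ⟨a, φ⟩ := x
      obtain ⟨b, ψ⟩ := y
      simp only [Sigma.mk.injEq] at h3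
      obtain ⟨rfl, h3⟩ := h3
      rw [comp_injective j (eq_of_heq h3)]
    · intro h3
      apply h2
      obtain ⟨a, φ⟩ := x
      obtain ⟨b, ψ⟩ := y
      have h4 : (⟨b, j.comp ψ⟩ : Σ i, (K i →+* ℂ)) = ⟨a, j.comp (cbar φ)⟩ := by
        rw [h3, comp_cbar]
        rfl
      simp only [Sigma.mk.injEq] at h4
      obtain ⟨rfl, h4⟩ := h4
      rw [comp_injective j (eq_of_heq h4)]
      rfl

end Pool.Agent.H194R3.Tate
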