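import Mathlib
import Pool.Agent.H194R3.Tate.Flip
import Pool.Agent.H194R3.Tate.PairInt
import Pool.Agent.H194R3.CM.Block2
import Pool.Agent.H485R3.RelSplit

/-!
# Weil numbers in CM fields over pair-transitive real fields
-/

set_option autoImplicit false
set_option linter.unusedSectionVars false
set_option linter.unusedVariables false

namespace Pool.Agent.H194R3.Tate

open NumberField Module Pool.Agent.H925R2 Pool.Agent.H485R3 Pool.Agent.H204R3.CM
  Pool.Agent.H868R3.TwoOdd Pool.Agent.H194R3.CM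

/-- If the pairs of elements of different blocks are flipped, a relation between the translates of
`u` splits into relations on the blocks. -/
theorem core_block_real {X I : Type*} [Fintype X] [DecidableEq X] [DecidableEq I] {G : Type*} [Group G]
    [Fintype G] [MulAction G X]
    (inv : X → X) (hG : ∀ (g : G) (x : X), g • inv x = inv (g • x)) (p : X → I)
    (u : X → ℝ) (hua : ∀ x, u (inv x) = -u x)
    (hflip : ∀ x y, p y ≠ p x →
      ∃ g : G, (g • x = x ∧ g • y = inv y) ∨ (g • x = inv x ∧ g • y = y))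
    (c : X → ℤ) (hrel : ∀ g : G, ∑ x, (c x : ℝ) * u (g • x) = 0) :
    (∀ i, ∀ g : G, ∑ x ∈ Finset.univ.filter (fun x => p x = i), (c x : ℝ) * u (g • x) = 0) ∧
      ∀ x y, p y ≠ p x → ∑ g : G, u (g • x) * u (g • y) = 0 := by
  classical
  let A : X → X → ℝ := fun x y => ∑ g : G, u (g • x) * u (g • y)
  have hAinv : ∀ (h : G) x y, A (h • x) (h • y) = A x y := by
    intro h x y
    simp only [A, ← mul_smul]
    exact Fintype.sum_equiv (Equiv.mulRight h) _ _ fun g => rfl
  have hA1 : ∀ x y, A (inv x) y = -A x y := by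
    intro x y
    simp only [A, hG, hua, neg_mul, Finset.sum_neg_distrib]
  have hA2 : ∀ x y, A x (inv y) = -A x y := by
    intro x y
    simp only [A, hG, hua, mul_neg, Finset.sum_neg_distrib]
  have hA0 : ∀ x y, p y ≠ p x → A x y = 0 := by
    intro x y h1
    obtain ⟨g, ⟨hg1, hg2⟩ | ⟨hg1, hg2⟩⟩ := hflip x y h1
    · have h3 := hAinv g x y
      rw [hg1, hg2, hA2] at h3
      linarith
    · have h3 := hAinv g x y
      rw [hg1, hg2, hA1] at h3
      linarith
  refine ⟨fun i => ?_, hA0⟩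
  have h1 : ∀ y, ∑ x, (c x : ℝ) * A x y = 0 := by
    intro y
    simp only [A, Finset.mul_sum]
    rw [Finset.sum_comm]
    refine Finset.sum_eq_zero fun g _ => ?_
    have h2 : ∑ x, (c x : ℝ) * (u (g • x) * u (g • y)) = (∑ x, (c x : ℝ) * u (g • x)) * u (g • y) := by
      rw [Finset.sum_mul]
      exact Finset.sum_congr rfl fun x _ => by ring
    rw [h2, hrel g, zero_mul]
  have h2 : ∀ y, p y = i → ∑ x ∈ Finset.univ.filter (fun x => p x = i), (c x : ℝ) * A x y = 0 := by
    intro y hy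
    rw [← h1 y, Finset.sum_filter]
    refine Finset.sum_congr rfl fun x _ => ?_
    split_ifs with h
    · rfl
    · rw [hA0 x y (by rw [hy]; exact fun h' => h h'.symm), mul_zero]
  have h3 : ∑ g : G, (∑ x ∈ Finset.univ.filter (fun x => p x = i), (c x : ℝ) * u (g • x)) ^ 2 = 0 := by
    have h4 : ∀ g : G, (∑ x ∈ Finset.univ.filter (fun x => p x = i), (c x : ℝ) * u (g • x)) ^ 2 =
        ∑ y ∈ Finset.univ.filter (fun x => p x = i),
          ∑ x ∈ Finset.univ.filter (fun x => p x = i),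
            (c y : ℝ) * ((c x : ℝ) * (u (g • x) * u (g • y))) := by
      intro g
      rw [sq, Finset.sum_mul_sum]
      exact Finset.sum_congr rfl fun x _ => Finset.sum_congr rfl fun y _ => by ring
    rw [Finset.sum_congr rfl (fun g _ => h4 g), Finset.sum_comm]
    refine Finset.sum_eq_zero fun y hy => ?_
    rw [Finset.sum_comm]
    have h5 := h2 y (Finset.mem_filter.1 hy).2
    have h6 : ∑ x ∈ Finset.univ.filter (fun x => p x = i),
        ∑ g : G, (c y : ℝ) * ((c x : ℝ) * (u (g • x) * u (g • y))) =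
        (c y : ℝ) * ∑ x ∈ Finset.univ.filter (fun x => p x = i), (c x : ℝ) * A x y := by
      simp only [A, Finset.mul_sum]
    rw [h6, h5, mul_zero]
  intro g
  have h4 := (Finset.sum_eq_zero_iff_of_nonneg (fun g _ => sq_nonneg _)).1 h3 g (Finset.mem_univ g)
  exact pow_eq_zero_iff (two_ne_zero) |>.1 h4


/-- Different conjugates of a Weil number, all powers of which generate the field, have different
slopes for some embedding (Kronecker). -/
theorem exists_slope_ne_slope (p : ℕ) [Fact p.Prime] {F : Type*} [Field F] [NumberField F]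
    [IsCMField F] {L : Type*} [Field L] [NumberField L] [IsGalois ℚ L] (m : ℕ) (π : F)
    (hint : IsIntegral ℤ π) (hgen : ∀ s : ℕ, 0 < s → IntermediateField.adjoin ℚ {π ^ s} = ⊤)
    (hweil : ∀ φ : F →+* ℂ, ‖φ π‖ ^ 2 = (((p : ℚ) ^ m : ℚ) : ℝ)) (e : L →ₐ[ℚ] PadicAlgCl p)
    (φ ψ : F →+* L) (hne : φ ≠ ψ) :
    ∃ g : L ≃ₐ[ℚ] L, dev p ((p : ℚ) ^ m) (e (g (φ π))) ≠ dev p ((p : ℚ) ^ m) (e (g (ψ π))) := by
  by_contra hall
  push Not at hall
  have hp : p.Prime := Fact.out
  have hq : (0 : ℚ) < (p : ℚ) ^ m := pow_pos (by exact_mod_cast hp.pos) _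
  have hπ0 : π ≠ 0 := weil_ne hq hweil
  have h0 : ∀ χ : F →+* L, χ π ≠ 0 := fun χ => (map_ne_zero χ).2 hπ0
  have hI : ∀ χ : F →+* L, IsIntegral ℤ (χ π) := fun χ => map_isIntegral_int χ hint
  have hnorm : ∀ g : L ≃ₐ[ℚ] L, ‖e (g (φ π))‖ = ‖e (g (ψ π))‖ := by
    intro g
    have h1 := hall g
    unfold dev at h1
    have h2 : Real.log ‖e (g (φ π))‖ = Real.log ‖e (g (ψ π))‖ := by linarith
    exact Real.log_injOn_pos
      (norm_pos_iff.2 ((map_ne_zero _).2 ((map_ne_zero _).2 (h0 φ))))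
      (norm_pos_iff.2 ((map_ne_zero _).2 ((map_ne_zero _).2 (h0 ψ)))) h2
  have hunit : ∀ (l : ℕ) [Fact l.Prime], l ≠ p → ∀ (e' : L →ₐ[ℚ] PadicAlgCl l) (χ : F →+* L),
      ‖e' (χ π)‖ = 1 := by
    intro l _ hlp e' χ
    have h1 : ‖e' (χ π)‖ ≤ 1 := norm_le_one_of_isIntegral l _ (map_isIntegral_int (e' : L →+* PadicAlgCl l) (hI χ))
    have h2 : ‖e' (cbar χ π)‖ ≤ 1 :=
      norm_le_one_of_isIntegral l _ (map_isIntegral_int (e' : L →+* PadicAlgCl l) (hI (cbar χ)))
    have h3 : e' (χ π) * e' (cbar χ π) = (p : PadicAlgCl l) ^ m := by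
      rw [← map_mul, weil_cbar hq hweil, mul_div_cancel₀ _ (h0 χ)]
      rw [map_ratCast]
      push_cast
      rfl
    have h4 : ‖e' (χ π)‖ * ‖e' (cbar χ π)‖ = 1 := by
      rw [← norm_mul, h3, norm_prime_pow_ne l p hp hlp]
    nlinarith [norm_nonneg (e' (χ π)), norm_nonneg (e' (cbar χ π))]
  have hz : IsIntegral ℤ (φ π / ψ π) := by
    apply isIntegral_of_norm_le
    intro l hl e'
    refine le_of_eq ?_
    rw [map_div₀, norm_div]
    by_cases hlp : l = p
    · subst hlp
      obtain ⟨g, hg⟩ := exists_gal e e'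
      rw [hg, hg, hnorm g, div_self]
      exact norm_ne_zero_iff.2 ((map_ne_zero _).2 ((map_ne_zero _).2 (h0 ψ)))
    · rw [hunit l hlp e' φ, hunit l hlp e' ψ, div_one]
  obtain ⟨s, hs, hs1⟩ := pow_eq_one_of_norm (φ π / ψ π) hz (fun τ => by
    have h1 := hweil ((τ : L →+* ℂ).comp φ)
    have h2 := hweil ((τ : L →+* ℂ).comp ψ)
    have h3 : ‖τ (φ π)‖ ^ 2 = ‖τ (ψ π)‖ ^ 2 := h1.trans h2.symm
    rw [map_div₀, norm_div, (pow_left_inj₀ (norm_nonneg _) (norm_nonneg _) two_ne_zero).1 h3,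
      div_self]
    exact norm_ne_zero_iff.2 ((map_ne_zero _).2 (h0 ψ)))
  apply hne
  apply hom_ext_of_gen (hgen s hs)
  rw [map_pow, map_pow]
  rw [div_pow, div_eq_one_iff_eq (pow_ne_zero _ (h0 ψ))] at hs1
  exact hs1

/-- A sign vector which is semi-invariant comes from an imaginary quadratic subfield. -/
theorem exists_delta {F : Type*} [Field F] [NumberField F] [IsCMField F]
    {L : Type*} [Field L] [NumberField L] [IsGalois ℚ L] (j : L →+* ℂ)
    (v : (F →+* L) → ℤ) (hv : ∀ x, v x = 1 ∨ v x = -1) (hvn : ∀ x, v (cbar x) = -v x)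
    (hvs : ∀ (g : L ≃ₐ[ℚ] L) x y, v (g • x) * v (g • y) = v x * v y) (x₀ : F →+* L) :
    ∃ (δ : F) (d : ℚ), d < 0 ∧ δ ^ 2 = (d : F) ∧
      ∀ φ : F →+* L, φ δ = ((v φ * v x₀ : ℤ) : L) * x₀ δ := by
  classical
  let G := L ≃ₐ[ℚ] L
  have hv2 : ∀ x, v x * v x = 1 := by
    intro x
    rcases hv x with h | h <;> rw [h] <;> norm_num
  let χ : G → ℤ := fun g => v (g • x₀) * v x₀
  have hχ2 : ∀ g, χ g * χ g = 1 := by
    intro g
    have e1 := hv2 (g • x₀)
    have e2 := hv2 x₀
    simp only [χ]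
    linear_combination (v x₀ * v x₀) * e1 + e2
  have hχm : ∀ g h : G, χ (g * h) = χ g * χ h := by
    intro g h
    have e1 := hvs g (h • x₀) x₀
    have e2 := hv2 (g • x₀)
    have e3 := hv2 x₀
    simp only [χ, mul_smul]
    linear_combination (v (g • x₀) * v x₀) * e1 - (v (g • h • x₀) * v x₀) * e2
  obtain ⟨β, hβ⟩ : ∃ β : L, ∑ g : G, ((χ g : ℤ) : L) * g β ≠ 0 := by
    by_contra hall
    push Not at hall
    have hli := (linearIndependent_monoidHom L L).comp
      (fun g : G => ((g : L →+* L) : L →* L)) (by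
        intro g g' h
        ext x
        exact DFunLike.congr_fun h x)
    have h1 := Fintype.linearIndependent_iff.1 hli (fun g => ((χ g : ℤ) : L)) (by
      funext x
      simpa using hall x) 1
    have h2 : ((χ 1 : ℤ) : L) * ((χ 1 : ℤ) : L) = 1 := by
      rw [← Int.cast_mul, hχ2, Int.cast_one]
    rw [h1, zero_mul] at h2
    exact zero_ne_one h2
  obtain ⟨D, hD⟩ : ∃ D, D = ∑ g : G, ((χ g : ℤ) : L) * g β := ⟨_, rfl⟩
  rw [← hD] at hβ
  have hgD : ∀ h : G, h D = ((χ h : ℤ) : L) * D := by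
    intro h
    rw [hD, map_sum, Finset.mul_sum]
    refine Fintype.sum_equiv (Equiv.mulLeft h) _ _ fun g => ?_
    rw [map_mul, map_intCast, Equiv.coe_mulLeft, hχm, ← mul_assoc, ← Int.cast_mul, ← mul_assoc,
      hχ2, one_mul]
    rfl
  let K0 : IntermediateField ℚ L := (RingHom.equivRatAlgHom F L x₀).fieldRange
  have hDK : D ∈ K0 := by
    rw [← IsGalois.fixedField_fixingSubgroup K0, IntermediateField.mem_fixedField_iff]
    intro g hg
    have h1 : g • x₀ = x₀ := by
      ext a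
      exact (IntermediateField.mem_fixingSubgroup_iff _ _).1 hg (x₀ a) ⟨a, rfl⟩
    rw [hgD]
    have h2 : χ g = 1 := by
      simp only [χ, h1]
      exact hv2 x₀
    rw [h2, Int.cast_one, one_mul]
  obtain ⟨δ, hδ⟩ := hDK
  have hδ' : x₀ δ = D := hδ
  have hD2 : D ^ 2 ∈ (⊥ : IntermediateField ℚ L) := by
    rw [IsGalois.mem_bot_iff_fixed]
    intro g
    rw [map_pow, hgD, mul_pow, sq, ← Int.cast_mul, hχ2, Int.cast_one, one_mul]
  obtain ⟨d, hd⟩ := IntermediateField.mem_bot.1 hD2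
  have hδ2 : δ ^ 2 = (d : F) := by
    apply x₀.injective
    rw [map_pow, hδ', map_ratCast, ← hd]
    rfl
  refine ⟨δ, d, ?_, hδ2, ?_⟩
  · obtain ⟨c, hc⟩ := exists_restrict j (starRingEnd ℂ)
    have hcx : c • x₀ = cbar x₀ := by
      apply comp_injective j
      rw [comp_smul_of_restrict j (starRingEnd ℂ) c hc, comp_cbar]
      rfl
    have hcD : c D = -D := by
      rw [hgD]
      simp only [χ, hcx, hvn, neg_mul, hv2]
      push_cast
      ring
    have h1 := hc D
    rw [hcD, map_neg] at h1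
    have h2 : ((d : ℝ) : ℂ) = -((Complex.normSq (j D) : ℝ) : ℂ) := by
      have h3 : j D * starRingEnd ℂ (j D) = (Complex.normSq (j D) : ℂ) := Complex.mul_conj _
      have h4 : j D ^ 2 = ((d : ℝ) : ℂ) := by
        rw [← map_pow, ← hd]
        simp
      rw [← h4, ← h3, ← h1]
      ring
    have h3 : (d : ℝ) = -Complex.normSq (j D) := by exact_mod_cast h2
    have h4 : 0 < Complex.normSq (j D) := Complex.normSq_pos.2 ((map_ne_zero j).2 hβ)
    have h5 : (d : ℝ) < 0 := by linarith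
    exact_mod_cast h5
  · intro φ
    obtain ⟨g, hg⟩ := MulAction.exists_smul_eq G x₀ φ
    have h1 : φ δ = g D := by
      rw [← hg, ← hδ']
      rfl
    rw [h1, hgD, hδ']
    simp only [χ, hg]

end Pool.Agent.H194R3.Tate
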