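import Mathlib
import Pool.Agent.H194R3.Tate.Pair

/-!
# No relations between slopes for Weil numbers over pair-transitive real fields
-/

set_option autoImplicit false
set_option linter.unusedSectionVars false
set_option linter.unusedVariables false

namespace Pool.Agent.H194R3.Tate

open NumberField Module Pool.Agent.H925R2 Pool.Agent.H485R3 Pool.Agent.H204R3.CM
  Pool.Agent.H868R3.TwoOdd Pool.Agent.H194R3.CM

/-- The Weil `p ^ m`-number `π` of the field `F` is of Weil type: `F` contains an imaginary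
quadratic field `ℚ(δ)` such that the normalised `p`-adic valuations `2 v (τ π) - m`, `τ` running
through the extensions to `F` of one embedding of `ℚ(δ)` in the algebraic closure of the `p`-adic
numbers, have the sum zero (that is, the square of the norm of `π` to `ℚ(δ)` is a power of `p`
times a root of unity). -/
def WeilSlopes (p : ℕ) [Fact p.Prime] {F : Type*} [Field F] (π : F) (m : ℕ) : Prop :=
  ∃ (δ : F) (d : ℚ) (δ' : PadicAlgCl p), d < 0 ∧ δ ^ 2 = (d : F) ∧ δ' ^ 2 = (d : PadicAlgCl p) ∧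
    ∑ᶠ τ ∈ {τ : F →+* PadicAlgCl p | τ δ = δ'}, (2 * (- Real.logb p ‖τ π‖) - m) = 0

variable {I : Type*} (p : ℕ) [Fact p.Prime] {K : I → Type*} [∀ i, Field (K i)]
  [∀ i, NumberField (K i)] [∀ i, IsCMField (K i)]

theorem weilSlopes_of {F : Type*} [Field F] [NumberField F] [IsCMField F]
    {L : Type*} [Field L] [NumberField L] [IsGalois ℚ L] (j : L →+* ℂ)
    (h : ∀ ψ : F →+* ℂ, ∃ φ : F →+* L, j.comp φ = ψ) (e : L →ₐ[ℚ] PadicAlgCl p) (m : ℕ) (π : F)
    (κ : ℝ) (u : (F →+* L) → ℤ)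
    (hu : ∀ φ : F →+* L, dev p ((p : ℚ) ^ m) (e (φ π)) = κ * u φ)
    (hua : ∀ φ, u (cbar φ) = -u φ)
    (v : (F →+* L) → ℤ) (hv : ∀ x, v x = 1 ∨ v x = -1) (hvn : ∀ x, v (cbar x) = -v x)
    (hvs : ∀ (g : L ≃ₐ[ℚ] L) x y, v (g • x) * v (g • y) = v x * v y)
    (hsum : ∑ x, u x * v x = 0) (x₀ : F →+* L) : WeilSlopes p π m := by
  classical
  have hp1 : (1 : ℝ) < p := by exact_mod_cast (Fact.out : p.Prime).one_lt
  have hlog : Real.log p ≠ 0 := (Real.log_pos hp1).ne'
  obtain ⟨δ, d, hd, hδ, hφ⟩ := exists_delta j v hv hvn hvs x₀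
  have hδ0 : δ ≠ 0 := by
    rintro rfl
    rw [zero_pow two_ne_zero] at hδ
    have h1 : d = 0 := by exact_mod_cast hδ.symm
    exact hd.ne h1
  have hx0 : x₀ δ ≠ 0 := (map_ne_zero x₀).2 hδ0
  have hv2 : ∀ x, v x * v x = 1 := by
    intro x
    rcases hv x with h | h <;> rw [h] <;> norm_num
  refine ⟨δ, d, e (x₀ δ), hd, hδ, ?_, ?_⟩
  · rw [← map_pow, ← map_pow, hδ, map_ratCast, map_ratCast]
  have hiff : ∀ φ : F →+* L, φ δ = x₀ δ ↔ v φ = v x₀ := by
    intro φ
    rw [hφ φ]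
    constructor
    · intro h1
      have h2 : ((v φ * v x₀ : ℤ) : L) = 1 := by
        apply mul_right_cancel₀ hx0
        rw [h1, one_mul]
      have h3 : v φ * v x₀ = 1 := by exact_mod_cast h2
      rcases hv φ with e1 | e1 <;> rcases hv x₀ with e2 | e2 <;> rw [e1, e2] at h3 ⊢ <;>
        norm_num at h3
    · intro h1
      rw [h1, hv2, Int.cast_one, one_mul]
  let E : (F →+* L) → (F →+* PadicAlgCl p) := fun φ => (e : L →+* PadicAlgCl p).comp φ
  have hE : Function.Injective E := by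
    intro φ φ' hh
    ext x
    have h1 : e (φ x) = e (φ' x) := RingHom.congr_fun hh x
    exact (e : L →+* PadicAlgCl p).injective h1
  have himg : {τ : F →+* PadicAlgCl p | τ δ = e (x₀ δ)} = E '' {φ | v φ = v x₀} := by
    ext τ
    constructor
    · intro h1
      obtain ⟨φ, rfl⟩ := exists_lift j h e τ
      refine ⟨φ, (hiff φ).1 ?_, rfl⟩
      exact (e : L →+* PadicAlgCl p).injective h1
    · rintro ⟨φ, h1, rfl⟩
      change e (φ δ) = e (x₀ δ)
      rw [(hiff φ).2 h1]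
  rw [himg, finsum_mem_image hE.injOn, finsum_mem_eq_toFinset_sum]
  let R : Finset (F →+* L) := Finset.univ.filter (fun φ => v φ = v x₀)
  have hR : IsHalf cbar R := by
    intro x
    simp only [R, Finset.mem_filter, Finset.mem_univ, true_and, hvn]
    rcases hv x with h | h <;> rcases hv x₀ with h' | h' <;> rw [h, h'] <;> norm_num
  have hRe : {φ | v φ = v x₀}.toFinset = R := by
    ext φ
    simp [R]
  rw [hRe]
  have h1 := hR.sum_symm cbar_cbar (fun x => u x * v x) (fun x => by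
    simp only [hua, hvn]; ring)
  rw [hsum] at h1
  have h2 : ∑ x ∈ R, u x * v x = (∑ x ∈ R, u x) * v x₀ := by
    rw [Finset.sum_mul]
    exact Finset.sum_congr rfl fun x hx => by rw [(Finset.mem_filter.1 hx).2]
  have h3 : ∑ x ∈ R, u x = 0 := by
    rw [h2] at h1
    rcases hv x₀ with h' | h' <;> rw [h'] at h1 <;> omega
  have h4 : ∀ φ : F →+* L, 2 * (- Real.logb p ‖E φ π‖) - m = -(κ / Real.log p) * u φ := by
    intro φ
    have h5 := hu φ
    rw [dev_eq_val] at h5
    have h6 : - Real.logb p ‖((((p : ℚ) ^ m : ℚ)) : PadicAlgCl p)‖ = m := by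
      rw [Pool.Agent.H925R2.norm_pow_cast, Real.logb_inv, Real.logb_pow,
        Real.logb_self_eq_one hp1]
      ring
    rw [h6] at h5
    change - Real.log p * (2 * (- Real.logb p ‖E φ π‖) - m) = κ * u φ at h5
    field_simp
    linarith
  rw [Finset.sum_congr rfl (fun φ _ => h4 φ), ← Finset.mul_sum]
  have h5 : ∑ φ ∈ R, ((u φ : ℤ) : ℝ) = 0 := by exact_mod_cast h3
  rw [h5, mul_zero]

/-- **No relations for pair-transitive fields**, if no `π i` is of Weil type. -/
theorem norel_of_pair [Fintype I] (m : I → ℕ) (π : ∀ i, K i) (hint : ∀ i, IsIntegral ℤ (π i))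
    (hgen : ∀ i, ∀ s : ℕ, 0 < s → IntermediateField.adjoin ℚ {π i ^ s} = ⊤)
    (hweil : ∀ i, ∀ φ : K i →+* ℂ, ‖φ (π i)‖ ^ 2 = (((p : ℚ) ^ m i : ℚ) : ℝ))
    (hpair : ∀ i, PairTransitive (maximalRealSubfield (K i)))
    (hdeg : ∀ i, Odd (finrank ℚ (maximalRealSubfield (K i))) ∨
      (finrank ℚ (maximalRealSubfield (K i)) - 1).Prime ∨
        TripleTransitive (maximalRealSubfield (K i)))
    (hW : ∀ i, ¬ WeilSlopes p (π i) (m i))
    (hflip : ∀ x y : Σ i, (K i →+* ℂ), y.1 ≠ x.1 → Flipped x y) :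
    NoRel p (fun i => (p : ℚ) ^ m i) π := by
  classical
  intro L _ _ j h e c hc hrel
  have hp : p.Prime := Fact.out
  have hq : ∀ i, (0 : ℚ) < (p : ℚ) ^ m i := fun i => pow_pos (by exact_mod_cast hp.pos) _
  let X := Σ i, (K i →+* L)
  let G := L ≃ₐ[ℚ] L
  have hG : ∀ (g : G) (x : X), g • inj x = inj (g • x) := by
    rintro g ⟨a, φ⟩
    rfl
  obtain ⟨hblock, -⟩ := core_block_real (X := X) (G := G) inj hG (fun x => x.1) (slope p _ π e)
    (slope_inj p hq hweil e)
    (fun x y hxy => by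
      obtain ⟨g, hg | hg | hg⟩ := flip_transfer j x y (hflip _ _ hxy)
      · exact ⟨g, Or.inl hg⟩
      · exact ⟨g, Or.inr hg⟩
      · exfalso
        apply hxy
        exact (congrArg Sigma.fst hg.1).symm) c hrel
  have hblock' : ∀ i, ∀ g : G, ∑ φ : K i →+* L, (c ⟨i, φ⟩ : ℝ) *
      slope p (fun i => (p : ℚ) ^ m i) π e ⟨i, g • φ⟩ = 0 := by
    intro i g
    rw [← hblock i g, Finset.sum_filter, Fintype.sum_sigma, Finset.sum_eq_single i]
    · refine Finset.sum_congr rfl fun φ _ => ?_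
      rw [if_pos rfl]
      rfl
    · intro b _ hb
      refine Finset.sum_eq_zero fun φ _ => ?_
      rw [if_neg hb]
    · intro h
      exact absurd (Finset.mem_univ _) h
  rintro ⟨i, φ₀⟩
  have hsl : ∀ φ : K i →+* L, slope p (fun i => (p : ℚ) ^ m i) π e ⟨i, cbar φ⟩ =
      -slope p (fun i => (p : ℚ) ^ m i) π e ⟨i, φ⟩ := fun φ => slope_inj p hq hweil e ⟨i, φ⟩
  obtain ⟨κ, U, hκ, hU⟩ := exists_int_dev p (f := minpoly ℚ (π i))
    (minpoly.ne_zero (Algebra.IsIntegral.isIntegral _)) (by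
      rintro α hα rfl
      have h1 : (minpoly ℚ (π i)).coeff 0 = 0 := by
        rw [Polynomial.aeval_def, Polynomial.eval₂_at_zero] at hα
        exact (map_eq_zero _).1 hα
      exact minpoly.coeff_zero_ne_zero (Algebra.IsIntegral.isIntegral _)
        (weil_ne (hq i) (hweil i)) h1) (hq i).ne'
  let u : (K i →+* L) → ℤ := fun φ => U (e (φ (π i)))
  have hroot : ∀ φ : K i →+* L, Polynomial.aeval (e (φ (π i))) (minpoly ℚ (π i)) = 0 := by
    intro φ
    have h1 := Polynomial.aeval_algHom_apply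
      (e.comp (RingHom.equivRatAlgHom (K i) L φ)) (π i) (minpoly ℚ (π i))
    rw [minpoly.aeval, map_zero] at h1
    exact h1
  have hus : ∀ φ : K i →+* L, slope p (fun i => (p : ℚ) ^ m i) π e ⟨i, φ⟩ = κ * u φ :=
    fun φ => hU _ (hroot φ)
  have hua : ∀ φ, u (cbar φ) = -u φ := by
    intro φ
    have h1 := hsl φ
    rw [hus, hus] at h1
    have h2 : κ * ((u (cbar φ) : ℝ) + u φ) = 0 := by linarith
    have h3 := (mul_eq_zero.1 h2).resolve_left hκ.ne'
    have h4 : u (cbar φ) + u φ = 0 := by exact_mod_cast h3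
    omega
  have hkr := fun φ ψ => exists_slope_ne_slope p (m i) (π i) (hint i) (hgen i) (hweil i) e φ ψ
  obtain ⟨g₀, hg₀⟩ : ∃ g : G, u (g • φ₀) ≠ 0 := by
    obtain ⟨g, hg⟩ := hkr φ₀ (cbar φ₀) (cbar_ne φ₀).symm
    refine ⟨g, fun h0 => hg ?_⟩
    have h1 : slope p (fun i => (p : ℚ) ^ m i) π e ⟨i, g • φ₀⟩ = 0 := by
      rw [hus, h0, Int.cast_zero, mul_zero]
    have h2 := hsl (g • φ₀)
    rw [h1, neg_zero] at h2
    exact h1.trans h2.symm
  have hcardi : Fintype.card (K i →+* L) = 2 * finrank ℚ (maximalRealSubfield (K i)) := by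
    have h0 : finrank (maximalRealSubfield (K i)) (K i) = 2 :=
      Algebra.IsQuadraticExtension.finrank_eq_two _ _
    rw [card_emb j (h i), ← finrank_mul_finrank ℚ (maximalRealSubfield (K i)) (K i),
      h0, mul_comm]
  have hreli : ∀ g : G, ∑ φ : K i →+* L, c ⟨i, φ⟩ * u (g • φ) = 0 := by
    intro g
    have h1 := hblock' i g
    have h2 : ∀ φ : K i →+* L, (c ⟨i, φ⟩ : ℝ) *
        slope p (fun i => (p : ℚ) ^ m i) π e ⟨i, g • φ⟩ = κ * ((c ⟨i, φ⟩ : ℝ) * u (g • φ)) := by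
      intro φ
      rw [hus]
      ring
    rw [Finset.sum_congr rfl (fun φ _ => h2 φ), ← Finset.mul_sum] at h1
    have h3 := (mul_eq_zero.1 h1).resolve_left hκ.ne'
    exact_mod_cast h3
  rcases core_pair_int (X := K i →+* L) (G := G) cbar cbar_cbar cbar_ne (fun g x => rfl)
    (finrank ℚ (maximalRealSubfield (K i))) finrank_pos hcardi
    (by
      rcases hdeg i with h' | h' | h'
      · exact Or.inl h'
      · exact Or.inr (Or.inl h')
      · exact Or.inr (Or.inr fun x y hx hy => triple_transfer j h' x y hx hy))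
    (fun x y x' y' h1 h2 h1' h2' => pair_transfer j (hpair i) x y x' y' h1 h2 h1' h2')
    (fun x y => MulAction.exists_smul_eq G x y) u ⟨g₀ • φ₀, hg₀⟩ hua
    (fun x => c ⟨i, x⟩) (fun x => hc ⟨i, x⟩) hreli with h1 | h1 | h1
  · exact h1 φ₀
  · obtain ⟨v, hv, hvn, hvs, hvu⟩ := h1
    by_cases hex : ∃ φ ψ : K i →+* L, φ ≠ ψ ∧ v φ = v ψ
    · exfalso
      obtain ⟨φ, ψ, hne, hvφ⟩ := hex
      obtain ⟨g, hg⟩ := hkr φ ψ hne
      apply hg
      have h2 := hvu g φ ψ
      rw [hvφ] at h2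
      have h3 : v ψ ≠ 0 := by
        rcases hv ψ with h' | h' <;> rw [h'] <;> norm_num
      have h4 := mul_right_cancel₀ h3 h2
      have h5 := hus (g • φ)
      have h6 := hus (g • ψ)
      rw [h4, ← h6] at h5
      exact h5
    · push Not at hex
      have hall : ∀ φ : K i →+* L, φ ≠ φ₀ → φ = cbar φ₀ := by
        intro φ hφ
        by_contra hne
        have h2 := hex φ φ₀ hφ
        have h3 := hex φ (cbar φ₀) hne
        rw [hvn] at h3
        rcases hv φ with e1 | e1 <;> rcases hv φ₀ with e2 | e2 <;> simp [e1, e2] at h2 h3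
      have h2 := hreli g₀
      have h3 : ∑ φ : K i →+* L, c ⟨i, φ⟩ * u (g₀ • φ) =
          c ⟨i, φ₀⟩ * u (g₀ • φ₀) + c ⟨i, cbar φ₀⟩ * u (g₀ • cbar φ₀) := by
        rw [← Finset.sum_pair (cbar_ne φ₀).symm (f := fun φ => c ⟨i, φ⟩ * u (g₀ • φ))]
        symm
        refine Finset.sum_subset (Finset.subset_univ _) fun φ _ hφ => ?_
        exfalso
        simp only [Finset.mem_insert, Finset.mem_singleton, not_or] at hφ
        exact hφ.2 (hall φ hφ.1)
      have h4 : c ⟨i, cbar φ₀⟩ = -c ⟨i, φ₀⟩ := hc ⟨i, φ₀⟩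
      have h5 : u (g₀ • cbar φ₀) = -u (g₀ • φ₀) := hua (g₀ • φ₀)
      rw [h3, h4, h5] at h2
      have h6 : c ⟨i, φ₀⟩ * u (g₀ • φ₀) = 0 := by linarith
      exact (mul_eq_zero.1 h6).resolve_right hg₀
  · exfalso
    obtain ⟨v, hv, hvn, hvs, hvo⟩ := h1
    apply hW i
    refine weilSlopes_of p j (h i) e (m i) (π i) κ u hus hua v hv hvn hvs ?_ φ₀
    have h2 := hvo 1
    simpa only [one_smul] using h2

end Pool.Agent.H194R3.Tate
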