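import Mathlib
import Pool.Agent.H194R3.Tate.PairMain
import Pool.Agent.H204R3.GP.Neat

/-!
# From slope vectors without relations to the criterion for one Frobenius element
-/

set_option autoImplicit false
set_option linter.unusedSectionVars false

namespace Pool.Agent.H194R3.Tate

open NumberField Module Pool.Agent.H925R2 Pool.Agent.H485R3 Pool.Agent.H204R3.CM
  Pool.Agent.H194R3.CM

variable {I : Type*} [Fintype I] (p : ℕ) [Fact p.Prime] {K : I → Type*} [∀ i, Field (K i)]
  [∀ i, NumberField (K i)] [∀ i, IsCMField (K i)]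

theorem norm_of_weil {F : Type*} [Field F] [NumberField F] [IsCMField F] (a : ℕ) (π : F)
    (hw : π * IsCMField.complexConj F π = (p : F) ^ a) (φ : F →+* ℂ) :
    ‖φ π‖ ^ 2 = (((p : ℚ) ^ a : ℚ) : ℝ) := by
  have h1 := congrArg φ hw
  rw [map_mul, IsCMField.complexEmbedding_complexConj, Complex.mul_conj,
    Complex.normSq_eq_norm_sq, map_pow, map_natCast] at h1
  push_cast
  exact_mod_cast h1

theorem neat_of_norel {L : Type*} [Field L] [NumberField L] [IsGalois ℚ L] (a : ℕ)
    (π : ∀ i, K i)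
    (hweil : ∀ i, ∀ φ : K i →+* ℂ, ‖φ (π i)‖ ^ 2 = (((p : ℚ) ^ a : ℚ) : ℝ))
    (e : L →ₐ[ℚ] PadicAlgCl p)
    (hnd : ∀ c : (Σ i, (K i →+* L)) → ℤ, (∀ x, c (inj x) = -c x) →
      (∀ g : L ≃ₐ[ℚ] L, ∑ x : Σ i, (K i →+* L), (c x : ℝ) *
        slope p (fun _ => (p : ℚ) ^ a) π e (g • x) = 0) → ∀ x, c x = 0) :
    Pool.Agent.H204R3.GP.Neat p a π L := by
  classical
  intro m M hM I hI y
  let E : Fin m × Fin 2 ≃ Fin (m * 2) := finProdFinEquiv
  have key := counts_of_norel p (fun _ => (p : ℚ) ^ a)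
    (fun _ => pow_pos (by exact_mod_cast (Fact.out : p.Prime).pos) _) π hweil e hnd
    (fun k => (I (E.symm k)).1) (fun k => (I (E.symm k)).2) M hM (by
      have h1 : ∏ k : Fin (m * 2), (I (E.symm k)).2 (π (I (E.symm k)).1) =
          ∏ l : Fin m × Fin 2, (I l).2 (π (I l).1) :=
        Fintype.prod_equiv E.symm _ _ fun k => rfl
      have h2 : ∏ l : Fin m × Fin 2, ((I l).2 (π (I l).1)) ^ M = ((p : L) ^ a) ^ (m * M) := hI
      rw [h1, mul_comm 2 M, pow_mul, ← Finset.prod_pow, h2, Finset.prod_const, Finset.card_univ,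
        Fintype.card_fin]
      push_cast
      ring) y.1 y.2
  have hcard : ∀ z : Σ i, (K i →+* L),
      Nat.card {k : Fin (m * 2) // (⟨(I (E.symm k)).1, (I (E.symm k)).2⟩ : Σ i, (K i →+* L)) = z} =
        (Finset.univ.filter (fun l => I l = z)).card := by
    intro z
    rw [← Fintype.card_subtype, ← Nat.card_eq_fintype_card]
    exact Nat.card_congr (E.symm.subtypeEquiv fun k => Iff.rfl)
  rw [hcard ⟨y.1, y.2⟩, hcard ⟨y.1, cbar y.2⟩] at key
  convert key using 2
  ext l
  simp only [Finset.mem_filter, Finset.mem_univ, true_and]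
  rfl

end Pool.Agent.H194R3.Tate
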