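import Mathlib
import Pool.Agent.H194R3.Tate.PairMain
import Pool.Agent.H194R3.Weil.Block

/-!
# No relations between slopes for mixed families: flipped fields and pair-transitive fields
-/

set_option autoImplicit false
set_option linter.unusedSectionVars false
set_option linter.unusedVariables false

namespace Pool.Agent.H194R3.Tate

open NumberField Module Pool.Agent.H925R2 Pool.Agent.H485R3 Pool.Agent.H204R3.CM
  Pool.Agent.H868R3.TwoOdd Pool.Agent.H194R3.CM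

/-- Some automorphism (it is the same to use endomorphisms) of the complex numbers fixes one of the
embeddings `φ`, `ψ` and conjugates the other one. -/
def CrossFlipped {F F' : Type*} [Field F] [Field F'] (φ : F →+* ℂ) (ψ : F' →+* ℂ) : Prop :=
  ∃ τ : ℂ →+* ℂ, (τ.comp φ = φ ∧ τ.comp ψ = ComplexEmbedding.conjugate ψ) ∨
    (τ.comp φ = ComplexEmbedding.conjugate φ ∧ τ.comp ψ = ψ)

/-- Flip type: any two embeddings `φ`, `ψ` of `F` (different and not conjugate) are cross flipped or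
`φ` is mapped to `ψ` and `ψ` to the conjugate of `φ` by some automorphism of the complex numbers;
and some `p`-adic valuation `v (τ π)` is not `m / 2`. -/
def FlipType (p : ℕ) [Fact p.Prime] (m : ℕ) {F : Type*} [Field F] (π : F) : Prop :=
  (∀ φ ψ : F →+* ℂ, ψ ≠ φ → ψ ≠ ComplexEmbedding.conjugate φ →
    CrossFlipped φ ψ ∨ ∃ τ : ℂ →+* ℂ, τ.comp φ = ψ ∧ τ.comp ψ = ComplexEmbedding.conjugate φ) ∧
    ∃ τ : F →+* PadicAlgCl p, 2 * (- Real.logb p ‖τ π‖) ≠ m

/-- Pair type: `π` is an algebraic integer, all its powers generate `F`, the maximal real subfield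
`F⁺` is pair-transitive; its degree `n` is odd or `n - 1` is a prime number or `F⁺` is
triple-transitive; and `π` is not of Weil type. -/
def PairType (p : ℕ) [Fact p.Prime] (m : ℕ) {F : Type*} [Field F] [NumberField F] (π : F) : Prop :=
  IsIntegral ℤ π ∧ (∀ s : ℕ, 0 < s → IntermediateField.adjoin ℚ {π ^ s} = ⊤) ∧
    PairTransitive (maximalRealSubfield F) ∧
    (Odd (finrank ℚ (maximalRealSubfield F)) ∨ (finrank ℚ (maximalRealSubfield F) - 1).Prime ∨
      TripleTransitive (maximalRealSubfield F)) ∧ ¬ WeilSlopes p π m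

variable {I : Type*} (p : ℕ) [Fact p.Prime] {K : I → Type*} [∀ i, Field (K i)]
  [∀ i, NumberField (K i)] [∀ i, IsCMField (K i)]

/-- **No relations for mixed families.** -/
theorem norel_of_mixed [Fintype I] (m : I → ℕ) (π : ∀ i, K i)
    (hweil : ∀ i, ∀ φ : K i →+* ℂ, ‖φ (π i)‖ ^ 2 = (((p : ℚ) ^ m i : ℚ) : ℝ))
    (hπ : ∀ i, PairType p (m i) (π i) ∨ FlipType p (m i) (π i))
    (hcross : ∀ i j, i ≠ j → ∀ (φ : K i →+* ℂ) (ψ : K j →+* ℂ), CrossFlipped φ ψ) :
    NoRel p (fun i => (p : ℚ) ^ m i) π := by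
  classical
  intro L _ _ j h e c hc hrel
  have hp : p.Prime := Fact.out
  have hp1 : (1 : ℝ) < p := by exact_mod_cast hp.one_lt
  have hq : ∀ i, (0 : ℚ) < (p : ℚ) ^ m i := fun i => pow_pos (by exact_mod_cast hp.pos) _
  let X := Σ i, (K i →+* L)
  let G := L ≃ₐ[ℚ] L
  have hG : ∀ (g : G) (x : X), g • inj x = inj (g • x) := by
    rintro g ⟨a, φ⟩
    rfl
  obtain ⟨hblock, -⟩ := core_block_real (X := X) (G := G) inj hG (fun x => x.1) (slope p _ π e)
    (slope_inj p hq hweil e)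
    (fun x y hxy => by
      have hfl : Flipped (⟨x.1, j.comp x.2⟩ : Σ i, (K i →+* ℂ)) ⟨y.1, j.comp y.2⟩ := by
        obtain ⟨τ, ⟨h1, h2⟩ | ⟨h1, h2⟩⟩ := hcross x.1 y.1 (fun h' => hxy h'.symm) (j.comp x.2)
          (j.comp y.2)
        · exact ⟨τ, Or.inl ⟨congrArg (Sigma.mk x.1) h1, congrArg (Sigma.mk y.1) h2⟩⟩
        · exact ⟨τ, Or.inr (Or.inl ⟨congrArg (Sigma.mk x.1) h1, congrArg (Sigma.mk y.1) h2⟩)⟩
      obtain ⟨g, hg | hg | hg⟩ := flip_transfer j x y hfl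
      · exact ⟨g, Or.inl hg⟩
      · exact ⟨g, Or.inr hg⟩
      · exfalso
        apply hxy
        exact (congrArg Sigma.fst hg.1).symm) c hrel
  have hblock' : ∀ i, ∀ g : G, ∑ φ : K i →+* L, (c ⟨i, φ⟩ : ℝ) *
      dev p ((p : ℚ) ^ m i) (e ((g • φ) (π i))) = 0 := by
    intro i g
    rw [← hblock i g, Finset.sum_filter, Fintype.sum_sigma, Finset.sum_eq_single i]
    · refine Finset.sum_congr rfl fun φ _ => ?_
      rw [if_pos rfl]
      rfl
    · intro b _ hb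
      refine Finset.sum_eq_zero fun φ _ => ?_
      rw [if_neg hb]
    · intro h
      exact absurd (Finset.mem_univ _) h
  rintro ⟨i, φ₀⟩
  rcases hπ i with ⟨hint, hgen, hpair, hdeg, hW⟩ | ⟨hflip, τ, hτ⟩
  · obtain ⟨v, l, hv, hvn, hcl, hrest⟩ := Pool.Agent.H194R3.Weil.block_structure p j (h i) e (m i)
      (π i) hint hgen (hweil i) hpair hdeg (fun φ => c ⟨i, φ⟩) (fun φ => hc ⟨i, φ⟩) (hblock' i)
    by_cases hl : l = 0
    · have h1 := hcl φ₀
      rw [hl, zero_mul] at h1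
      exact h1
    · exact absurd (hrest hl).1 hW
  · refine core_flip_real (X := K i →+* L) (G := G) cbar cbar_cbar cbar_ne (fun g x => rfl)
      (fun φ => dev p ((p : ℚ) ^ m i) (e (φ (π i)))) ?_ ?_ ?_ (fun φ => c ⟨i, φ⟩)
      (fun φ => hc ⟨i, φ⟩) (hblock' i) φ₀
    · intro φ
      obtain ⟨φ', hφ'⟩ := exists_lift j (h i) e τ
      obtain ⟨g, hg⟩ := MulAction.exists_smul_eq G φ φ'
      refine ⟨g, ?_⟩
      have h1 : - Real.logb p ‖((((p : ℚ) ^ m i : ℚ)) : PadicAlgCl p)‖ = m i := by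
        rw [Pool.Agent.H925R2.norm_pow_cast, Real.logb_inv, Real.logb_pow,
          Real.logb_self_eq_one hp1]
        ring
      rw [hg]
      have h2 : e (φ' (π i)) = τ (π i) := RingHom.congr_fun hφ' (π i)
      rw [h2, dev_eq_val, h1]
      exact mul_ne_zero (neg_ne_zero.2 (Real.log_pos hp1).ne') (sub_ne_zero.2 hτ)
    · intro φ
      have h1 := dev_inv p (hq i).ne' (((e : L →+* PadicAlgCl p).comp φ) (π i))
        ((map_ne_zero _).2 (weil_ne (hq i) (hweil i)))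
      rw [← weil_cbar (hq i) (hweil i)] at h1
      exact h1
    · intro φ ψ h1 h2
      have hfl : Flipped (⟨i, j.comp φ⟩ : Σ i, (K i →+* ℂ)) ⟨i, j.comp ψ⟩ := by
        rcases hflip (j.comp φ) (j.comp ψ) (fun h3 => h1 (comp_injective j h3))
          (fun h3 => h2 (by
            rw [← comp_cbar] at h3
            exact comp_injective j h3)) with ⟨τ', ⟨h3, h4⟩ | ⟨h3, h4⟩⟩ | ⟨τ', h3, h4⟩
        · exact ⟨τ', Or.inl ⟨congrArg (Sigma.mk i) h3, congrArg (Sigma.mk i) h4⟩⟩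
        · exact ⟨τ', Or.inr (Or.inl ⟨congrArg (Sigma.mk i) h3, congrArg (Sigma.mk i) h4⟩)⟩
        · exact ⟨τ', Or.inr (Or.inr ⟨congrArg (Sigma.mk i) h3, congrArg (Sigma.mk i) h4⟩)⟩
      obtain ⟨g, hg⟩ := flip_transfer j (⟨i, φ⟩ : Σ i, (K i →+* L)) ⟨i, ψ⟩ hfl
      have hsm : ∀ {a b : K i →+* L}, (⟨i, a⟩ : Σ i, (K i →+* L)) = ⟨i, b⟩ → a = b :=
        fun h' => eq_of_heq (Sigma.mk.inj_iff.1 h').2
      refine ⟨g, ?_⟩
      rcases hg with ⟨h3, h4⟩ | ⟨h3, h4⟩ | ⟨h3, h4⟩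
      · exact Or.inl ⟨hsm h3, hsm h4⟩
      · exact Or.inr (Or.inl ⟨hsm h3, hsm h4⟩)
      · exact Or.inr (Or.inr ⟨hsm h3, hsm h4⟩)

end Pool.Agent.H194R3.Tate
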