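import Mathlib
import Pool.Agent.H868R3.PoleExt
import Pool.Agent.H925R2.Multi

/-!
# Numerical equivalence on the exterior algebra

If the Tate classes of degree `2 (g - j)` are polynomials in the Tate classes of degree two, a
Tate class of degree `2 j` which is orthogonal to the products of `g - j` Tate classes of degree
two is zero.
-/

set_option autoImplicit false
set_option linter.unusedSectionVars false

namespace Pool.Agent.H194R3.Tate

open Module Set Set.powersetCard

theorem map_coe' {R V : Type*} [CommRing R] [AddCommGroup V] [Module R V] {j : ℕ} (F : V →ₗ[R] V)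
    (x : ⋀[R]^j V) :
    ((exteriorPower.map j F x : ⋀[R]^j V) : ExteriorAlgebra R V) =
      ExteriorAlgebra.map F (x : ExteriorAlgebra R V) := by
  have h1 : (⋀[R]^j V).subtype ∘ₗ exteriorPower.map j F =
      (ExteriorAlgebra.map F).toLinearMap ∘ₗ (⋀[R]^j V).subtype := by
    apply exteriorPower.linearMap_ext
    ext m
    simp only [LinearMap.compAlternatingMap_apply, LinearMap.comp_apply, Submodule.subtype_apply,
      exteriorPower.map_apply_ιMulti, exteriorPower.ιMulti_apply_coe, AlgHom.toLinearMap_apply,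
      ExteriorAlgebra.map_apply_ιMulti]
  exact LinearMap.congr_fun h1 x

theorem prod_orderEmb {M : Type*} [CommMonoid M] {d k : ℕ} (S : powersetCard (Fin d) k)
    (f : Fin d → M) : ∏ l, f (ofFinEmbEquiv.symm S l) = ∏ i ∈ S.val, f i := by
  have h1 := Finset.map_orderEmbOfFin_univ S.val S.prop
  conv_rhs => rw [← h1, Finset.prod_map]
  rfl

theorem map_family {R V : Type*} [CommRing R] [AddCommGroup V] [Module R V] {d k : ℕ}
    (F : V →ₗ[R] V) (b : Fin d → V) (μ : Fin d → R) (hμ : ∀ i, F (b i) = μ i • b i)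
    (S : powersetCard (Fin d) k) :
    exteriorPower.map k F (exteriorPower.ιMulti_family R k b S) =
      (∏ i ∈ S.val, μ i) • exteriorPower.ιMulti_family R k b S := by
  rw [exteriorPower.map_apply_ιMulti_family]
  unfold exteriorPower.ιMulti_family
  have h1 : (F ∘ b) ∘ (ofFinEmbEquiv.symm S) =
      fun l => μ (ofFinEmbEquiv.symm S l) • (b ∘ (ofFinEmbEquiv.symm S)) l := by
    funext l
    simp only [Function.comp_apply, hμ]
  rw [h1, ← prod_orderEmb]
  exact (exteriorPower.ιMulti R k).toMultilinearMap.map_smul_univ _ _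

theorem pow_eigen' {R V : Type*} [CommRing R] [AddCommGroup V] [Module R V] (F : V →ₗ[R] V)
    (v : V) (μ : R) (h : F v = μ • v) (s : ℕ) : (F ^ s) v = μ ^ s • v := by
  induction s with
  | zero => simp
  | succ s ih => rw [pow_succ', Module.End.mul_apply, ih, map_smul, h, smul_smul, pow_succ]

theorem eq_zero_of_numerical {Ω V : Type*} [Field Ω] [AddCommGroup V] [Module Ω V]
    [FiniteDimensional Ω V] (F : V →ₗ[Ω] V) (E : Set Ω)
    (hF : Submodule.span Ω {v : V | ∃ μ : Ω, μ ∈ E ∧ F v = μ • v} = ⊤)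
    (q : Ω) (hq : q ≠ 0) (g : ℕ) (hdim : finrank Ω V = 2 * g) (hdet : LinearMap.det F = q ^ g)
    (j : ℕ) (hj : j ≤ g) (s : ℕ)
    (hT : ∀ y ∈ ⋀[Ω]^(2 * (g - j)) V, ExteriorAlgebra.map (F ^ s) y = (q ^ (g - j)) ^ s • y →
      y ∈ Algebra.adjoin Ω
        {y : ExteriorAlgebra Ω V | y ∈ ⋀[Ω]^2 V ∧ ExteriorAlgebra.map F y = q • y})
    (x : ExteriorAlgebra Ω V) (hx : x ∈ ⋀[Ω]^(2 * j) V)
    (hFx : ExteriorAlgebra.map (F ^ s) x = (q ^ j) ^ s • x)
    (hnum : ∀ y : Fin (g - j) → ExteriorAlgebra Ω V,
      (∀ l, y l ∈ ⋀[Ω]^2 V ∧ ExteriorAlgebra.map F (y l) = q • y l) →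
        x * (List.ofFn y).prod = 0) : x = 0 := by
  classical
  obtain ⟨d, b, μ, hμE, hμ⟩ := Pool.Agent.H925R2.exists_eigenbasis F E hF
  have hd : d = 2 * g := by
    rw [← hdim, finrank_eq_card_basis b, Fintype.card_fin]
  have hdet' : ∏ i, μ i = q ^ g := by
    rw [← hdet, ← LinearMap.det_toMatrix b]
    have h1 : LinearMap.toMatrix b b F = Matrix.diagonal μ := by
      ext i k
      rw [LinearMap.toMatrix_apply, hμ, map_smul, Finsupp.smul_apply, Basis.repr_self,
        Matrix.diagonal_apply, Finsupp.single_apply, smul_eq_mul]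
      by_cases h : i = k
      · rw [if_pos h, if_pos h.symm, mul_one, h]
      · rw [if_neg h, if_neg (fun h' => h h'.symm), mul_zero]
    rw [h1, Matrix.det_diagonal]
  have hμs : ∀ i, (F ^ s) (b i) = μ i ^ s • b i := fun i => pow_eigen' F _ _ (hμ i) s
  by_contra hx0
  let B := b.exteriorPower (2 * j)
  let xx : ⋀[Ω]^(2 * j) V := ⟨x, hx⟩
  have hxx : xx ≠ 0 := fun h => hx0 (congrArg Subtype.val h)
  obtain ⟨S, hS⟩ : ∃ S, B.repr xx S ≠ 0 := by
    by_contra hall
    push Not at hall
    apply hxx
    apply B.repr.injective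
    rw [map_zero]
    ext S
    exact hall S
  have hmapx : exteriorPower.map (2 * j) (F ^ s) xx = (q ^ j) ^ s • xx := by
    apply Subtype.ext
    rw [map_coe']
    exact hFx
  have hmapB : ∀ J, exteriorPower.map (2 * j) (F ^ s) (B J) = (∏ i ∈ J.val, μ i ^ s) • B J := by
    intro J
    have h1 := map_family (F ^ s) b (fun i => μ i ^ s) hμs J
    simp only [B, exteriorPower.basis_apply]
    exact h1
  have hα : ∏ i ∈ S.val, μ i ^ s = (q ^ j) ^ s := by
    have h1 : B.coord S (exteriorPower.map (2 * j) (F ^ s) xx) =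
        (∏ i ∈ S.val, μ i ^ s) * B.coord S xx := by
      have h2 : (B.coord S) ∘ₗ (exteriorPower.map (2 * j) (F ^ s)) =
          (∏ i ∈ S.val, μ i ^ s) • B.coord S := by
        apply B.ext
        intro J
        rw [LinearMap.comp_apply, hmapB, map_smul, LinearMap.smul_apply, Basis.coord_apply,
          Basis.repr_self, Finsupp.single_apply]
        by_cases h : J = S
        · rw [h]
        · rw [if_neg h, smul_zero, smul_zero]
      exact LinearMap.congr_fun h2 xx
    rw [hmapx, map_smul, smul_eq_mul] at h1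
    exact (mul_right_cancel₀ hS h1).symm
  -- the complementary element
  let T : powersetCard (Fin d) (2 * (g - j)) := ⟨S.valᶜ, by
    change (S.valᶜ).card = _
    rw [Finset.card_compl, Fintype.card_fin, S.prop]
    omega⟩
  let y : ExteriorAlgebra Ω V :=
    (exteriorPower.ιMulti_family Ω (2 * (g - j)) b T : ExteriorAlgebra Ω V)
  have hy2 : y ∈ ⋀[Ω]^(2 * (g - j)) V :=
    (exteriorPower.ιMulti_family Ω (2 * (g - j)) b T).2
  have hprod : (∏ i ∈ S.val, μ i ^ s) * ∏ i ∈ T.val, μ i ^ s = (q ^ g) ^ s := by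
    rw [← hdet', ← Finset.prod_pow]
    exact Finset.prod_mul_prod_compl S.val (fun i => μ i ^ s)
  have hβ : ∏ i ∈ T.val, μ i ^ s = (q ^ (g - j)) ^ s := by
    rw [hα] at hprod
    apply mul_left_cancel₀ (pow_ne_zero s (pow_ne_zero j hq))
    rw [hprod, ← mul_pow, ← pow_add, Nat.add_sub_cancel' hj]
  have hyF : ExteriorAlgebra.map (F ^ s) y = (q ^ (g - j)) ^ s • y := by
    have h1 := map_family (F ^ s) b (fun i => μ i ^ s) hμs T
    rw [hβ] at h1
    have h2 := congrArg Subtype.val h1
    rw [map_coe'] at h2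
    exact h2
  have hy3 := Pool.Agent.H868R3.TwoOdd.mem_pow_of_mem_adjoin _ (fun z hz => hz.1) (g - j) y
    (hT y hy2 hyF) hy2
  have hspan : ∀ z ∈ (Submodule.span Ω
      {y : ExteriorAlgebra Ω V | y ∈ ⋀[Ω]^2 V ∧ ExteriorAlgebra.map F y = q • y}) ^ (g - j),
      x * z = 0 := by
    intro z hz
    rw [Submodule.span_pow] at hz
    induction hz using Submodule.span_induction with
    | mem z hz =>
      rw [Set.mem_pow] at hz
      obtain ⟨f, rfl⟩ := hz
      exact hnum (fun l => f l) (fun l => (f l).2)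
    | zero => rw [mul_zero]
    | add a b _ _ ha hb => rw [mul_add, ha, hb, add_zero]
    | smul c a _ ha => rw [mul_smul_comm, ha, smul_zero]
  have hxy : x * y = 0 := hspan y hy3
  -- the product is not zero
  have hxy2 : x * y = B.repr xx S • ((B S : ⋀[Ω]^(2 * j) V) * y) := by
    have h1 : x = ∑ J, B.repr xx J • (B J : ExteriorAlgebra Ω V) := by
      have h2 : ((∑ J, B.repr xx J • B J : ⋀[Ω]^(2 * j) V) : ExteriorAlgebra Ω V) = x :=
        congrArg Subtype.val (B.sum_repr xx)
      refine h2.symm.trans ?_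
      rw [AddSubmonoidClass.coe_finsetSum]
      rfl
    conv_lhs => rw [h1, Finset.sum_mul]
    rw [Finset.sum_eq_single S]
    · rw [smul_mul_assoc]
    · intro J _ hJ
      rw [smul_mul_assoc]
      have h3 : ¬ Disjoint J.val T.val := by
        intro h4
        apply hJ
        have h5 : J.val ⊆ S.val := by
          intro i hi
          by_contra h6
          exact Finset.disjoint_left.1 h4 hi (Finset.mem_compl.2 h6)
        apply Subtype.ext
        exact Finset.eq_of_subset_of_card_le h5 (by rw [J.prop, S.prop])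
      have h4 := ExteriorAlgebra.ιMulti_family_mul_of_not_disjoint Ω b J T h3
      have h5 : (B J : ExteriorAlgebra Ω V) * y = 0 := by
        rw [← h4]
        simp only [B, exteriorPower.basis_apply, y, exteriorPower.ιMulti_family_apply_coe]
      rw [h5, smul_zero]
    · intro h
      exact absurd (Finset.mem_univ _) h
  rw [hxy2, smul_eq_zero] at hxy
  have hST : Disjoint S.val T.val := disjoint_compl_right
  have h1 := ExteriorAlgebra.ιMulti_family_mul_of_disjoint Ω b S T hST
  have h2 : (B S : ExteriorAlgebra Ω V) * y = 0 := hxy.resolve_left hS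
  have h3 : (B S : ExteriorAlgebra Ω V) * y = ExteriorAlgebra.ιMulti_family Ω (2 * j) b S *
      ExteriorAlgebra.ιMulti_family Ω (2 * (g - j)) b T := by
    simp only [B, exteriorPower.basis_apply, y, exteriorPower.ιMulti_family_apply_coe]
  rw [h3, h1, ← exteriorPower.ιMulti_family_apply_coe, ← exteriorPower.basis_apply] at h2
  have h4 := (b.exteriorPower (2 * j + 2 * (g - j))).ne_zero (disjUnion hST)
  apply h4
  apply Subtype.ext
  rcases Int.units_eq_one_or (Equiv.Perm.sign (permOfDisjoint hST)) with h5 | h5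
  · rw [h5, one_smul] at h2
    exact h2
  · rw [h5, Units.neg_smul, one_smul, neg_eq_zero] at h2
    exact h2

end Pool.Agent.H194R3.Tate
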